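import Pool.Agent.FisherMin.Assemble

/-!
Minimal Fisher information of a Gaussian with symmetric additive noise.

For every `0 < α < 1` the Fisher information `I_f`, `f(x) = ∫ φ(x - u) dG(u)`, has a unique
minimizer `G` in the class `𝒢_α`; it is a step distribution with infinitely many, locally finitely
many, atoms; and it is not of the suggested explicit form (atoms in arithmetic progression with
geometric weights), not even eventually.
-/

open MeasureTheory Filter Topology

namespace Pool.Agent.Results.MP_1b24b4_pr.StepNotGeometric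

open Pool.Agent.FisherMin

/-- For every `0 < α < 1` there is exactly one minimizer `G` of the Fisher information over `𝒢_α`.
It is a step distribution: there are `0 = g 0 < g 1 < g 2 < ⋯ → ∞` and `p j > 0` with `p 0 = α` such
that `G = p 0 δ_0 + ∑_{j ≥ 1} p j (δ_{g j} + δ_{- g j})`. Its atoms and weights are not eventually an
arithmetic progression and a geometric progression: there are no `J, a, h, c, q` with `g j = a + j h`
and `p j = c q ^ j` for all `j ≥ J`. In particular (`J = 1`, `a = 0`) the form `g j = j g`,
`p j = c p ^ j` for `j > 0` is impossible. -/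
theorem result (α : ℝ) (h0 : 0 < α) (h1 : α < 1) :
    ∃ G ∈ classG α,
      (∀ G' ∈ classG α, fisher (mix G) ≤ fisher (mix G')) ∧
      (∀ G' ∈ classG α, fisher (mix G') ≤ fisher (mix G) → G' = G) ∧
      ∃ g p : ℕ → ℝ, g 0 = 0 ∧ p 0 = α ∧ StrictMono g ∧ Tendsto g atTop atTop ∧
        (∀ j, 0 < p j) ∧ G = stepMeasure g p ∧
        ¬ ∃ (J : ℕ) (a h c q : ℝ), ∀ j ≥ J, g j = a + j * h ∧ p j = c * q ^ j := by
  obtain ⟨G, hG, hmin, lam, hE⟩ := exists_equal h0 h1
  have hprob := hG.1
  obtain ⟨g, p, hg0, hp0, hmono, htend, hppos, hstep, hofp, hsymm, hnull, hlev⟩ :=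
    exists_step h0 hG hE
  refine ⟨G, hG, hmin, ?_, g, p, hg0, hp0, hmono, htend, hppos, hstep, ?_⟩
  · intro G' hG' hle
    refine (unique_min h0 hG hG' hmin fun G'' hG'' => hle.trans (hmin G'' hG'')).symm
  · exact not_eventually_geometric h0 hG hg0 hmono hppos hofp hsymm hnull hlev

end Pool.Agent.Results.MP_1b24b4_pr.StepNotGeometric
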